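import Pool.Agent.Helper82.RD.Defs

/-!
Project RD (MP_86d903_lc): module GRE, the greedy construction.
-/

set_option autoImplicit false

open Finset MP86d903

namespace Pool.Agent.Helper82.RD

variable {ι V : Type} [DecidableEq ι] [Fintype ι] [Fintype V] [DecidableEq V]
  {vs ng : ι → Finset V} {q : ℕ}

/-- the vectors of `Λ` which are even on all members of `E` -/
private def KE (Λ : Submodule (ZMod 2) (V → ZMod 2)) (E : Finset (Finset V)) :
    Submodule (ZMod 2) (V → ZMod 2) where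
  carrier := {b | b ∈ Λ ∧ ∀ e ∈ E, ∑ i ∈ e, b i = 0}
  zero_mem' := ⟨Λ.zero_mem, fun e _ => Finset.sum_eq_zero fun i _ => rfl⟩
  add_mem' := by
    intro a b ha hb
    refine ⟨Λ.add_mem ha.1 hb.1, fun e he => ?_⟩
    have h1 : ∑ i ∈ e, (a + b) i = ∑ i ∈ e, a i + ∑ i ∈ e, b i := Finset.sum_add_distrib
    rw [h1, ha.2 e he, hb.2 e he, add_zero]
  smul_mem' := by
    intro c a ha
    refine ⟨Λ.smul_mem c ha.1, fun e he => ?_⟩
    have h1 : ∑ i ∈ e, (c • a) i = c * ∑ i ∈ e, a i := (Finset.mul_sum _ _ _).symm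
    rw [h1, ha.2 e he, mul_zero]

private theorem greedy {A : Finset V}
    (hSUM : ∀ b ∈ PM vs A, ∀ K : Finset V, Disjoint K A → (∀ x ∈ K, att vs A x ⊆ K) →
      ∑ i ∈ K, b i = 0)
    (hAP : AP vs A) {r τ : ℕ}
    (hGRS : ∀ E : Finset (Finset V), GF vs q A E → E.card + 1 ≤ r → ∀ b : V → ZMod 2,
      τ < (OO vs A b).card →
      ∃ x, x ∉ A ∧ bs vs A b x ≠ 0 ∧ att vs A x ∉ E ∧ GF vs q A (insert (att vs A x) E))
    (Λ : Submodule (ZMod 2) (V → ZMod 2)) (hΛ : Module.finrank (ZMod 2) Λ ≤ r)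
    (hdi : ∀ b ∈ Λ, OO vs A b = ∅ ∨ τ < (OO vs A b).card) :
    ∀ (n : ℕ) (E : Finset (Finset V)), Module.finrank (ZMod 2) (KE Λ E) = n → GF vs q A E →
      E.card + Module.finrank (ZMod 2) (KE Λ E) ≤ Module.finrank (ZMod 2) Λ →
      ∃ E' : Finset (Finset V), GF vs q A E' ∧
        E'.card + Module.finrank (ZMod 2) (KE Λ E') ≤ Module.finrank (ZMod 2) Λ ∧
        ∀ b ∈ KE Λ E', ∑ i ∈ Aᶜ, b i = 0 := by
  intro n
  induction n using Nat.strong_induction_on with
  | _ n ih =>
    intro E hn hE hEc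
    by_cases hall : ∀ b ∈ KE Λ E, ∑ i ∈ Aᶜ, b i = 0
    · exact ⟨E, hE, hEc, hall⟩
    · push Not at hall
      obtain ⟨b, hb, hb0⟩ := hall
      have hpos : 1 ≤ Module.finrank (ZMod 2) (KE Λ E) := by
        rw [Nat.one_le_iff_ne_zero]
        intro h0
        rw [Submodule.finrank_eq_zero] at h0
        rw [h0, Submodule.mem_bot] at hb
        apply hb0
        rw [hb]
        exact Finset.sum_eq_zero fun i _ => rfl
      have hOO : τ < (OO vs A b).card := by
        rcases hdi b hb.1 with h | h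
        · exfalso
          apply hb0
          apply hSUM b _ Aᶜ (disjoint_compl_left)
          · intro x hx
            rw [Finset.mem_compl] at hx
            intro i hi
            rw [Finset.mem_compl]
            exact Finset.disjoint_left.1 (hAP.dis x hx) hi
          · rw [mem_PM]
            intro x hx
            by_contra hne
            have : x ∈ OO vs A b := by
              unfold OO
              rw [Finset.mem_filter]
              exact ⟨Finset.mem_univ _, hx, hne⟩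
            rw [h] at this
            exact Finset.notMem_empty _ this
        · exact h
      obtain ⟨x, hxA, hbx, hxE, hE'⟩ := hGRS E hE (by omega) b hOO
      have hlt : KE Λ (insert (att vs A x) E) < KE Λ E := by
        apply lt_of_le_of_ne
        · intro c hc
          exact ⟨hc.1, fun e he => hc.2 e (Finset.mem_insert_of_mem he)⟩
        · intro heq
          rw [← heq] at hb
          exact hbx (hb.2 _ (Finset.mem_insert_self _ _))
      have hf := Submodule.finrank_lt_finrank_of_lt hlt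
      refine ih _ (by omega) (insert (att vs A x) E) rfl hE' ?_
      rw [Finset.card_insert_of_notMem hxE]
      omega

theorem mGRE {A : Finset V} (hCL : CL vs q A) (hAP : AP vs A)
    (hSUM : ∀ b ∈ PM vs A, ∀ K : Finset V, Disjoint K A → (∀ x ∈ K, att vs A x ⊆ K) →
      ∑ i ∈ K, b i = 0)
    (hGRL : ∀ (Λ : Submodule (ZMod 2) (V → ZMod 2)) (K : Finset V) (E : Finset (Finset V)),
      (∀ b ∈ Λ, (∀ e ∈ E, ∑ i ∈ e, b i = 0) → ∑ i ∈ K, b i = 0) →
      ∃ I ⊆ E, ∀ b ∈ Λ, ∑ i ∈ K, b i = ∑ e ∈ I, ∑ i ∈ e, b i)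
    {r τ : ℕ}
    (hGRS : ∀ E : Finset (Finset V), GF vs q A E → E.card + 1 ≤ r → ∀ b : V → ZMod 2,
      τ < (OO vs A b).card →
      ∃ x, x ∉ A ∧ bs vs A b x ≠ 0 ∧ att vs A x ∉ E ∧ GF vs q A (insert (att vs A x) E))
    (Λ : Submodule (ZMod 2) (V → ZMod 2)) (hΛ : Module.finrank (ZMod 2) Λ ≤ r)
    (hdi : ∀ b ∈ Λ, OO vs A b = ∅ ∨ τ < (OO vs A b).card) :
    ∃ J : Finset V, J.card ≤ 2 * r ∧ UA vs A J ∧ SPa vs q (A ∪ J) ∧
      ∀ b ∈ Λ, ∑ i ∈ (A ∪ J)ᶜ, b i = 0 := by
  -- the empty family is good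
  have hgood : GF vs q A ∅ := by
    refine ⟨fun e he => (Finset.notMem_empty _ he).elim, ?_⟩
    intro I hI
    rw [Finset.subset_empty] at hI
    subst hI
    rw [Finset.biUnion_empty]
    refine ⟨⟨Finset.disjoint_empty_left _, fun c _ => Or.inr (Finset.disjoint_empty_right _),
      fun c _ => by simp⟩, ?_⟩
    intro S hS hSq hSc
    rw [Finset.union_empty] at hSc ⊢
    have := hCL.gg2 S hS hSq hSc
    omega
  have hle : KE Λ ∅ ≤ Λ := fun b hb => hb.1
  obtain ⟨E, hE, hEc, hEb⟩ := greedy hSUM hAP hGRS Λ hΛ hdi _ ∅ rfl hgood (by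
    rw [Finset.card_empty, zero_add]
    exact Submodule.finrank_mono hle)
  obtain ⟨I, hI, hIb⟩ := hGRL Λ Aᶜ E (fun b hb he => hEb b ⟨hb, he⟩)
  have hsub := hE.sub I hI
  refine ⟨I.biUnion id, ?_, hsub.1, hsub.2, ?_⟩
  · have h1 : (I.biUnion id).card ≤ ∑ e ∈ I, (id e).card := Finset.card_biUnion_le
    have h2 : ∑ e ∈ I, (id e).card ≤ ∑ e ∈ I, 2 := by
      apply Finset.sum_le_sum
      intro e he
      rcases hE.ats e (hI he) with ⟨x, _, rfl, _⟩ | ⟨c, hc, rfl⟩
      · simp
      · exact hc.le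
    rw [Finset.sum_const, smul_eq_mul] at h2
    have h3 := Finset.card_le_card hI
    omega
  · intro b hb
    have hJA : Disjoint (I.biUnion id) A := hsub.1.disj
    have e1 : (A ∪ I.biUnion id)ᶜ = Aᶜ \ I.biUnion id := by
      ext i
      simp only [Finset.mem_compl, Finset.mem_union, Finset.mem_sdiff, not_or]
    have hsubc : I.biUnion id ⊆ Aᶜ := by
      intro i hi
      rw [Finset.mem_compl]
      exact Finset.disjoint_left.1 hJA hi
    have e2 := Finset.sum_sdiff (f := b) hsubc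
    have e3 : ∑ i ∈ I.biUnion id, b i = ∑ e ∈ I, ∑ i ∈ e, b i := by
      rw [Finset.sum_biUnion]
      · rfl
      · intro e he e' he' hne
        rw [Function.onFun, Finset.disjoint_left]
        intro x hx hx'
        apply hne
        rw [← hAP.ats e x (hE.ats e (hI he)) hx, ← hAP.ats e' x (hE.ats e' (hI he')) hx']
    rw [e1]
    rw [hIb b hb, ← e3] at e2
    have e4 : ∑ i ∈ Aᶜ \ I.biUnion id, b i + ∑ i ∈ I.biUnion id, b i =
      0 + ∑ i ∈ I.biUnion id, b i := by rw [e2, zero_add]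
    exact add_right_cancel e4

end Pool.Agent.Helper82.RD
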